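import Pool.Agent.N718.DC.Stm

/-!
Project DC (helper718), part LIN (helper80): sums of `lam` over progressions.
-/

set_option autoImplicit false

namespace Pool.Agent.N80.DC

open Finset Filter Topology Pool.Agent.N718.DC

lemma lam_nonneg (n : ℤ) : 0 ≤ lam n := by
  unfold lam
  split_ifs with h
  · apply Real.log_nonneg
    have : (1 : ℤ) ≤ n := h.1
    exact_mod_cast this
  · exact le_rfl

lemma lam_le {n : ℤ} {X : ℕ} (hX : 1 ≤ X) (h : n ≤ X) : lam n ≤ Real.log X := by
  unfold lam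
  split_ifs with h1
  · apply Real.log_le_log
    · exact_mod_cast h1.1
    · exact_mod_cast h
  · apply Real.log_nonneg
    exact_mod_cast hX

lemma pos_nonneg (n : ℤ) : 0 ≤ pos n := by
  unfold pos
  split_ifs <;> norm_num

lemma pos_le (n : ℤ) : pos n ≤ 1 := by
  unfold pos
  split_ifs <;> norm_num

/-- the number of the positive integers in an interval -/
lemma sum_pos (a b : ℤ) (hab : a ≤ b) :
    ∑ n ∈ Ioc a b, pos n = max (b : ℝ) 0 - max (a : ℝ) 0 := by
  induction b, hab using Int.leInduction with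
  | base => simp
  | succ b hb ih =>
    have h1 : Ioc a (b + 1) = insert (b + 1) (Ioc a b) := by
      ext n
      simp only [mem_Ioc, mem_insert]
      omega
    rw [h1, sum_insert (by simp), ih]
    unfold pos
    by_cases h : 0 < b + 1
    · rw [if_pos h]
      have h2 : (0 : ℝ) ≤ (b : ℝ) := by exact_mod_cast (by omega : 0 ≤ b)
      push_cast
      rw [max_eq_left h2, max_eq_left (by linarith : (0 : ℝ) ≤ (b : ℝ) + 1)]
      ring
    · rw [if_neg h]
      have h2 : (b : ℝ) + 1 ≤ 0 := by exact_mod_cast (by omega : b + 1 ≤ 0)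
      push_cast
      rw [max_eq_right h2, max_eq_right (by linarith : (b : ℝ) ≤ 0)]
      ring

/-- the number of the positive terms of a progression -/
lemma sum_prog (c : ℤ) (m : ℕ) (k₁ k₂ : ℤ) (h : k₁ ≤ k₂) :
    (c + m * k₂ ≤ 0 → ∑ k ∈ Ioc k₁ k₂, pos (c + m * k) = 0) ∧
    (m : ℝ) * ∑ k ∈ Ioc k₁ k₂, pos (c + m * k) ≤
      max ((c + m * k₂ : ℤ) : ℝ) 0 - max ((c + m * k₁ : ℤ) : ℝ) 0 + m ∧
    max ((c + m * k₂ : ℤ) : ℝ) 0 - max ((c + m * k₁ : ℤ) : ℝ) 0 ≤
      (m : ℝ) * ∑ k ∈ Ioc k₁ k₂, pos (c + m * k) := by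
  have hm0 : (0 : ℝ) ≤ m := Nat.cast_nonneg m
  induction k₂, h using Int.leInduction with
  | base =>
    refine ⟨fun _ => by simp, ?_, ?_⟩
    · simp
    · simp
  | succ b hb ih =>
    obtain ⟨i1, i2, i3⟩ := ih
    have h1 : Ioc k₁ (b + 1) = insert (b + 1) (Ioc k₁ b) := by
      ext n
      simp only [mem_Ioc, mem_insert]
      omega
    have hmz : (0 : ℤ) ≤ m := Nat.cast_nonneg m
    have e1 : c + (m : ℤ) * (b + 1) = c + m * b + m := by ring
    have hk : c + (m : ℤ) * k₁ ≤ c + m * b := by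
      have := mul_le_mul_of_nonneg_left hb hmz
      linarith
    rw [h1, sum_insert (by simp), e1]
    set P := ∑ k ∈ Ioc k₁ b, pos (c + m * k) with hP
    set a := c + (m : ℤ) * b with ha
    set d := c + (m : ℤ) * k₁ with hd
    have hpn : 0 ≤ pos (a + m) := pos_nonneg _
    refine ⟨fun h => ?_, ?_, ?_⟩
    · rw [i1 (by omega), add_zero]
      unfold pos
      rw [if_neg (by omega)]
    · by_cases h : a ≤ 0
      · have h2 := i1 h
        rw [h2, add_zero]
        have hd0 : (d : ℝ) ≤ 0 := by exact_mod_cast hk.trans h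
        rw [max_eq_right hd0]
        have h3 := mul_le_mul_of_nonneg_left (pos_le (a + m)) hm0
        have h4 : 0 ≤ max ((a + m : ℤ) : ℝ) 0 := le_max_right _ _
        linarith
      · have ha0 : (0 : ℝ) ≤ (a : ℝ) := by exact_mod_cast (by omega : 0 ≤ a)
        have h3 := mul_le_mul_of_nonneg_left (pos_le (a + m)) hm0
        rw [max_eq_left ha0] at i2
        push_cast
        rw [max_eq_left (by linarith : (0 : ℝ) ≤ (a : ℝ) + m)]
        linarith
    · by_cases h : 0 < a + (m : ℤ)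
      · have h2 : pos (a + m) = 1 := by unfold pos; rw [if_pos h]
        rw [h2]
        have h3 : (0 : ℝ) ≤ (a : ℝ) + m := by exact_mod_cast h.le
        push_cast
        rw [max_eq_left h3]
        have h4 : (a : ℝ) ≤ max (a : ℝ) 0 := le_max_left _ _
        linarith
      · have h3 : (a : ℝ) + m ≤ 0 := by exact_mod_cast (by omega : a + (m : ℤ) ≤ 0)
        push_cast
        rw [max_eq_right h3]
        have h4 : 0 ≤ max (a : ℝ) 0 := le_max_right _ _
        have h5 := mul_nonneg hm0 hpn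
        linarith

lemma big (κ A : ℕ) : ∃ X₀ : ℕ, ∀ X : ℕ, X₀ ≤ X → 1 ≤ X ∧ 1 ≤ Real.log X ∧
    Real.log X + 2 * Real.log X ^ κ + X / Real.log X ^ (A + 1) ≤ X / Real.log X ^ A := by
  have h1 := (Real.isLittleO_pow_log_id_atTop (n := κ + 1 + A)).bound
    (show (0 : ℝ) < 1 / 6 by norm_num)
  have h2 : Tendsto (fun X : ℕ => (X : ℝ)) atTop atTop := tendsto_natCast_atTop_atTop
  have h3 : Tendsto (fun X : ℕ => Real.log (X : ℝ)) atTop atTop := Real.tendsto_log_atTop.comp h2
  obtain ⟨X₀, hX₀⟩ := eventually_atTop.1 ((h2.eventually h1).and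
    ((h3.eventually_ge_atTop 2).and (eventually_ge_atTop 1)))
  refine ⟨X₀, fun X hX => ?_⟩
  obtain ⟨a1, a2, a3⟩ := hX₀ X hX
  refine ⟨a3, by linarith, ?_⟩
  have hXr : (0 : ℝ) < X := by exact_mod_cast a3
  set ℓ := Real.log (X : ℝ) with hℓ
  have hℓ1 : 1 ≤ ℓ := by linarith
  have hℓ0 : 0 < ℓ := by linarith
  rw [Real.norm_of_nonneg (by positivity), id, Real.norm_of_nonneg hXr.le] at a1
  have b1 : X / ℓ ^ (A + 1) ≤ (1 / 2) * (X / ℓ ^ A) := by
    rw [pow_succ, ← div_div]
    rw [div_le_iff₀ hℓ0]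
    have : 0 ≤ X / ℓ ^ A := by positivity
    nlinarith
  have b2 : (ℓ + 2 * ℓ ^ κ) * ℓ ^ A ≤ X / 2 := by
    have c1 : ℓ * ℓ ^ A ≤ ℓ ^ (κ + 1 + A) := by
      rw [← pow_succ']
      exact pow_le_pow_right₀ hℓ1 (by omega)
    have c2 : ℓ ^ κ * ℓ ^ A ≤ ℓ ^ (κ + 1 + A) := by
      rw [← pow_add]
      exact pow_le_pow_right₀ hℓ1 (by omega)
    nlinarith
  have b3 : ℓ + 2 * ℓ ^ κ ≤ (1 / 2) * (X / ℓ ^ A) := by
    have h4 : ℓ + 2 * ℓ ^ κ ≤ (X / 2) / ℓ ^ A := by
      rw [le_div_iff₀ (by positivity)]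
      exact b2
    refine h4.trans (le_of_eq ?_)
    ring
  linarith

lemma rt_le {m : ℕ} (hm : 1 ≤ m) : 0 ≤ rt m ∧ rt m ≤ m ∧
    rt m = (1 / (Nat.totient m : ℝ)) * m := by
  have h1 : (1 : ℝ) ≤ Nat.totient m := by exact_mod_cast Nat.totient_pos.2 hm
  refine ⟨?_, ?_, ?_⟩
  · unfold rt; positivity
  · unfold rt
    exact div_le_self (Nat.cast_nonneg m) h1
  · unfold rt
    ring

theorem lin_ (h : S_SW) : S_LIN := by
  classical
  intro κ A
  obtain ⟨X₁, hX₁⟩ := h κ (A + 1)
  obtain ⟨X₂, hX₂⟩ := big κ A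
  refine ⟨X₁ + X₂, ?_⟩
  intro X hX m hm hmX c k₁ k₂ hk
  obtain ⟨hX1, hℓ1, hb⟩ := hX₂ X (by omega)
  have hXr : (1 : ℝ) ≤ X := by exact_mod_cast hX1
  obtain ⟨hr0, hrm, hre⟩ := rt_le hm
  have hmr : (1 : ℝ) ≤ m := by exact_mod_cast hm
  have hle : ∀ k ∈ Icc k₁ k₂, lam (c + m * k) ≤ Real.log X := fun k hk' =>
    lam_le hX1 ((le_abs_self _).trans (hk k hk'))
  have hRHS : 0 ≤ X / Real.log X ^ (A + 1) := by positivity
  have hκ0 : 0 ≤ Real.log X ^ κ := by positivity
  rcases lt_or_ge k₂ k₁ with hkk | hkk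
  · have h0 : Icc k₁ k₂ = ∅ := Finset.Icc_eq_empty (by omega)
    rw [h0]
    simp only [sum_empty, ite_self, mul_zero, sub_zero, abs_zero]
    positivity
  by_cases hco : IsCoprime c (m : ℤ)
  · rw [if_pos hco]
    have hmz : (0 : ℤ) < m := by exact_mod_cast hm
    have hn : c + (m : ℤ) * k₁ ≤ c + m * k₂ := by
      have := mul_le_mul_of_nonneg_left hkk hmz.le
      linarith
    have hn1 := abs_le.1 (hk k₁ (mem_Icc.2 ⟨le_rfl, hkk⟩))
    have hn2 := abs_le.1 (hk k₂ (mem_Icc.2 ⟨hkk, le_rfl⟩))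
    have hsw := hX₁ X (by omega) m hm hmX c hco (c + m * k₁) (c + m * k₂) hn1.1 hn hn2.2
    have e1 : ∑ n ∈ (Ioc (c + (m : ℤ) * k₁) (c + m * k₂)).filter (fun n => (m : ℤ) ∣ n - c), lam n =
        ∑ k ∈ Ioc k₁ k₂, lam (c + m * k) := by
      symm
      refine sum_bij (fun k _ => c + (m : ℤ) * k) ?_ ?_ ?_ ?_
      · intro k hk'
        rw [mem_Ioc] at hk'
        rw [mem_filter, mem_Ioc]
        refine ⟨⟨?_, ?_⟩, ⟨k, by ring⟩⟩
        · have := mul_lt_mul_of_pos_left hk'.1 hmz
          linarith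
        · have := mul_le_mul_of_nonneg_left hk'.2 hmz.le
          linarith
      · intro a _ b _ hab
        have h2 : (m : ℤ) * a = m * b := by
          simpa using hab
        exact mul_left_cancel₀ hmz.ne' h2
      · intro n hn'
        rw [mem_filter, mem_Ioc] at hn'
        obtain ⟨⟨h2, h3⟩, k, hk'⟩ := hn'
        have e : n = c + m * k := by linarith
        refine ⟨k, ?_, e.symm⟩
        rw [mem_Ioc]
        rw [e] at h2 h3
        constructor
        · have : (m : ℤ) * k₁ < m * k := by linarith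
          exact lt_of_mul_lt_mul_left this hmz.le
        · have : (m : ℤ) * k ≤ m * k₂ := by linarith
          exact le_of_mul_le_mul_left this hmz
      · intro k _
        rfl
    rw [e1, sum_pos _ _ hn] at hsw
    obtain ⟨-, g1, g2⟩ := sum_prog c m k₁ k₂ hkk
    have h1 : Icc k₁ k₂ = insert k₁ (Ioc k₁ k₂) := by
      ext n
      simp only [mem_Icc, mem_Ioc, mem_insert]
      omega
    have hk1 := hle k₁ (mem_Icc.2 ⟨le_rfl, hkk⟩)
    have hk1' := lam_nonneg (c + m * k₁)
    rw [h1, sum_insert (by simp), sum_insert (by simp), hre]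
    set P := ∑ k ∈ Ioc k₁ k₂, pos (c + m * k) with hP
    set S := ∑ k ∈ Ioc k₁ k₂, lam (c + m * k) with hS
    set D := max ((c + m * k₂ : ℤ) : ℝ) 0 - max ((c + m * k₁ : ℤ) : ℝ) 0 with hD
    have hφ : (0 : ℝ) < 1 / (Nat.totient m : ℝ) := by
      have : (0 : ℝ) < Nat.totient m := by exact_mod_cast Nat.totient_pos.2 hm
      positivity
    have hφ1 : 1 / (Nat.totient m : ℝ) ≤ 1 := by
      have : (1 : ℝ) ≤ Nat.totient m := by exact_mod_cast Nat.totient_pos.2 hm
      rw [div_le_one (by linarith)]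
      exact this
    set φ := 1 / (Nat.totient m : ℝ) with hφd
    have p1 : 0 ≤ φ * (m * P - D) := mul_nonneg hφ.le (by linarith)
    have p2 : φ * (m * P - D) ≤ m := by
      calc φ * (m * P - D) ≤ φ * m := mul_le_mul_of_nonneg_left (by linarith) hφ.le
        _ ≤ 1 * m := mul_le_mul_of_nonneg_right hφ1 (by linarith)
        _ = m := one_mul _
    have p3 : 0 ≤ φ * m * pos (c + m * k₁) := mul_nonneg (by positivity) (pos_nonneg _)
    have p4 : φ * m * pos (c + m * k₁) ≤ m := by
      calc φ * m * pos (c + m * k₁) ≤ φ * m * 1 :=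
            mul_le_mul_of_nonneg_left (pos_le _) (by positivity)
        _ ≤ 1 * m * 1 := by
            apply mul_le_mul_of_nonneg_right _ (by norm_num)
            exact mul_le_mul_of_nonneg_right hφ1 (by linarith)
        _ = m := by ring
    have hs := abs_le.1 hsw
    rw [abs_le]
    have e3 : lam (c + m * k₁) + S - φ * m * (pos (c + m * k₁) + P) =
        lam (c + m * k₁) + (S - φ * D) - φ * (m * P - D) - φ * m * pos (c + m * k₁) := by ring
    rw [e3]
    constructor
    · linarith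
    · linarith
  · rw [if_neg hco, mul_zero, sub_zero]
    have hnn : 0 ≤ ∑ k ∈ Icc k₁ k₂, lam (c + m * k) := sum_nonneg fun k _ => lam_nonneg _
    rw [abs_of_nonneg hnn]
    have hgoal : ∑ k ∈ Icc k₁ k₂, lam (c + m * k) ≤ Real.log X := by
      by_cases hex : ∃ k ∈ Icc k₁ k₂, lam (c + m * k) ≠ 0
      · obtain ⟨k₀, hk₀, hk₀'⟩ := hex
        have hg : ∀ k, lam (c + m * k) ≠ 0 → c + m * k = Int.gcd c m := by
          intro k hk'
          have h2 : 0 < c + (m : ℤ) * k ∧ (c + (m : ℤ) * k).natAbs.Prime := by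
            by_contra hcon
            apply hk'
            unfold lam
            rw [if_neg hcon]
          have h3 : Int.gcd c m ∣ (c + (m : ℤ) * k).natAbs := by
            rw [← Int.natCast_dvd]
            exact dvd_add (Int.gcd_dvd_left _ _) ((Int.gcd_dvd_right _ _).mul_right k)
          rcases (Nat.dvd_prime h2.2).1 h3 with h4 | h4
          · exact absurd (Int.isCoprime_iff_gcd_eq_one.2 h4) hco
          · rw [h4]
            exact (Int.natAbs_of_nonneg h2.1.le).symm
        rw [sum_eq_single k₀]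
        · exact hle k₀ hk₀
        · intro k _ hne
          by_contra hcon
          have e := (hg k hcon).trans (hg k₀ hk₀').symm
          have hmz : (m : ℤ) ≠ 0 := by exact_mod_cast (by omega : m ≠ 0)
          have e' : (m : ℤ) * k = m * k₀ := by linarith
          exact hne (mul_left_cancel₀ hmz e')
        · intro h2
          exact absurd hk₀ h2
      · have h0 : ∑ k ∈ Icc k₁ k₂, lam (c + m * k) = 0 := by
          apply sum_eq_zero
          intro k hk'
          by_contra hcon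
          exact hex ⟨k, hk', hcon⟩
        rw [h0]
        linarith
    linarith

end Pool.Agent.N80.DC
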